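import Mathlib
import Pool.Agent.helper19.IT.Defs

/-!
# Existence of the auxiliary models of the map `F_M`

From the existence of saturated elementary extensions (in the same universe): every infinite structure `V` has an
elementarily equivalent monster model `U` containing `M ≺⁺ M'` and an `|M'|⁺`-saturated elementary extension `(N', N)` of
the pair `(M', M)`.
-/

set_option autoImplicit false

namespace Pool.Agent.helper92.IT

open FirstOrder FirstOrder.Language Cardinal Pool.Agent.helper19.IT

universe u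

/-! ### saturation is monotone and invariant under isomorphism -/

theorem sat_mono {L : FirstOrder.Language.{u, u}} {V : Type u} [L.Structure V] {κ κ' : Cardinal.{u}}
    (h : Saturated L V κ') (hk : κ ≤ κ') : Saturated L V κ :=
  fun A hA n Γ hΓ => h A (hA.trans_le hk) n Γ hΓ

theorem sat_of_equiv {L : FirstOrder.Language.{u, u}} {A B : Type u} [L.Structure A] [L.Structure B]
    (e : A ≃[L] B) {κ : Cardinal.{u}} (h : Saturated L A κ) : Saturated L B κ := by
  classical
  intro C hC n Γ hΓ
  have hcard : Cardinal.mk (e ⁻¹' C : Set A) = Cardinal.mk C :=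
    Cardinal.mk_congr ((e.toEquiv.image (e ⁻¹' C)).trans (_root_.Equiv.setCongr (by
      ext b
      constructor
      · rintro ⟨a, ha, rfl⟩
        exact ha
      · intro hb
        refine ⟨e.symm b, ?_, e.apply_symm_apply b⟩
        change e (e.symm b) ∈ C
        rw [e.apply_symm_apply]
        exact hb)))
  -- the bijection of the parameters
  let c : C → (e ⁻¹' C : Set A) := fun b => ⟨e.symm b, by
    change e (e.symm (b : B)) ∈ C
    rw [e.apply_symm_apply]
    exact b.2⟩
  have hc : ∀ b : C, e ((c b : (e ⁻¹' C : Set A)) : A) = b := fun b => e.apply_symm_apply _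
  have key : ∀ (a : Fin n → A) (φ : L.Formula (C ⊕ Fin n)),
      ((φ.relabel (Sum.map c id) : L.Formula ((e ⁻¹' C : Set A) ⊕ Fin n)).Realize
        (Sum.elim (fun x : (e ⁻¹' C : Set A) => (x : A)) a) ↔
        φ.Realize (Sum.elim (fun x : C => (x : B)) (fun i => e (a i)))) := by
    intro a φ
    rw [Formula.realize_relabel]
    have h1 : (Sum.elim (fun x : C => (x : B)) (fun i => e (a i)) : C ⊕ Fin n → B) =
        e ∘ ((Sum.elim (fun x : (e ⁻¹' C : Set A) => (x : A)) a) ∘ (Sum.map c id)) := by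
      funext z
      rcases z with z | z
      · exact (hc z).symm
      · rfl
    rw [h1]
    exact (StrongHomClass.realize_formula e φ).symm
  obtain ⟨a, ha⟩ := h (e ⁻¹' C : Set A) (hcard ▸ hC) n {ψ | ∃ φ ∈ Γ, φ.relabel (Sum.map c id) = ψ} (by
    intro s hs
    choose F hF1 hF2 using hs
    have hs2 : ∀ φ ∈ s.attach.image (fun ψ : {x // x ∈ s} => F ψ.1 ψ.2), φ ∈ Γ := by
      intro φ hφ
      obtain ⟨ψ, -, rfl⟩ := Finset.mem_image.1 hφ
      exact hF1 _ _
    obtain ⟨b, hb⟩ := hΓ _ hs2
    refine ⟨fun i => e.symm (b i), fun ψ hψ => ?_⟩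
    rw [← hF2 ψ hψ, key]
    have h2 : (fun i => e (e.symm (b i))) = b := by
      funext i
      exact e.apply_symm_apply _
    rw [h2]
    exact hb _ (Finset.mem_image.2 ⟨⟨ψ, hψ⟩, Finset.mem_attach _ _, rfl⟩))
  exact ⟨fun i => e (a i), fun φ hφ => (key a φ).1 (ha _ ⟨φ, hφ, rfl⟩)⟩

/-! ### the pair structure -/

/-- every structure in the language `L_P` is a pair -/
theorem exists_pairStr {L : FirstOrder.Language.{u, u}} (W : Type u) (S : (L.sum LP.{u}).Structure W) :
    ∃ (S0 : L.Structure W) (Q : Set W), @pairStr L W S0 Q = S := by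
  refine ⟨(LHom.sumInl : L →ᴸ L.sum LP.{u}).reduct W, {x | @Structure.RelMap (L.sum LP.{u}) W S 1 (Sum.inr PRel.P) ![x]},
    ?_⟩
  refine Structure.ext ?_ ?_
  · funext n f x
    rcases f with g | e
    · rfl
    · exact PEmpty.elim e
  · funext n r x
    rcases r with s | p
    · rfl
    · cases p
      have hx : x = ![x 0] := by
        funext i
        fin_cases i
        rfl
      change (@Structure.RelMap (L.sum LP.{u}) W S 1 (Sum.inr PRel.P) ![x 0]) = _
      rw [← hx]

theorem pair_isExpansionOn {L : FirstOrder.Language.{u, u}} {V : Type u} [L.Structure V] (P : Set V) :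
    @LHom.IsExpansionOn L (L.sum LP.{u}) (LHom.sumInl : L →ᴸ L.sum LP.{u}) V _ (pairStr L V P) :=
  @LHom.IsExpansionOn.mk L (L.sum LP.{u}) (LHom.sumInl : L →ᴸ L.sum LP.{u}) V _ (pairStr L V P)
    (fun _ _ => rfl) (fun _ _ => rfl)

/-- an `L`-formula seen in `L_P` -/
def up {L : FirstOrder.Language.{u, u}} {α : Type} (φ : L.Formula α) : (L.sum LP.{u}).Formula α :=
  (LHom.sumInl : L →ᴸ L.sum LP.{u}).onFormula φ

theorem realize_up {L : FirstOrder.Language.{u, u}} {V : Type u} [L.Structure V] (P : Set V) {α : Type}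
    (φ : L.Formula α) (v : α → V) :
    @Formula.Realize (L.sum LP.{u}) V (pairStr L V P) α (up φ) v ↔ φ.Realize v := by
  let _ := pairStr L V P
  have := pair_isExpansionOn (L := L) P
  exact (LHom.sumInl : L →ᴸ L.sum LP.{u}).realize_onFormula φ

/-- the formula `P(x_i)` -/
def atP {L : FirstOrder.Language.{u, u}} {α : Type} (i : α) : (L.sum LP.{u}).Formula α :=
  Relations.formula (L := L.sum LP.{u}) (Sum.inr PRel.P) (fun _ : Fin 1 => Term.var i)

theorem realize_atP {L : FirstOrder.Language.{u, u}} {V : Type u} [L.Structure V] (P : Set V) {α : Type}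
    (i : α) (v : α → V) :
    @Formula.Realize (L.sum LP.{u}) V (pairStr L V P) α (atP i) v ↔ v i ∈ P := by
  let _ := pairStr L V P
  exact Formula.realize_rel

/-- The Tarski-Vaught property of `P` for the formula `φ(x; y)`, as a sentence of `L_P`. -/
noncomputable def tv {L : FirstOrder.Language.{u, u}} {n : ℕ} (φ : L.Formula (Fin n ⊕ Fin 1)) :
    (L.sum LP.{u}).Formula (Fin 0) :=
  Formula.iAlls (L := L.sum LP.{u}) (α := Fin 0) (Fin n)
    (Formula.relabel (L := L.sum LP.{u}) (Sum.inr : Fin n → Fin 0 ⊕ Fin n)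
      ((Formula.iInf (L := L.sum LP.{u}) (fun i : Fin n => atP (L := L) i)).imp
        ((Formula.iExs (L := L.sum LP.{u}) (α := Fin n) (Fin 1) (up φ)).imp
          (Formula.iExs (L := L.sum LP.{u}) (α := Fin n) (Fin 1) (up φ ⊓ atP (L := L) (Sum.inr 0))))))

theorem realize_tv {L : FirstOrder.Language.{u, u}} {V : Type u} [L.Structure V] (P : Set V) {n : ℕ}
    (φ : L.Formula (Fin n ⊕ Fin 1)) (v : Fin 0 → V) :
    @Formula.Realize (L.sum LP.{u}) V (pairStr L V P) (Fin 0) (tv φ) v ↔
      ∀ x : Fin n → V, (∀ i, x i ∈ P) → (∃ a : Fin 1 → V, φ.Realize (Sum.elim x a)) →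
        ∃ b : Fin 1 → V, φ.Realize (Sum.elim x b) ∧ b 0 ∈ P := by
  let _ := pairStr L V P
  rw [tv, Formula.realize_iAlls]
  refine forall_congr' fun x => ?_
  rw [Formula.realize_relabel, Formula.realize_imp, Formula.realize_imp, Formula.realize_iInf, Formula.realize_iExs,
    Formula.realize_iExs]
  refine imp_congr (forall_congr' fun i => realize_atP P i _) (imp_congr (exists_congr fun a => realize_up P _ _)
    (exists_congr fun b => ?_))
  rw [Formula.realize_inf]
  exact and_congr (realize_up P _ _) (realize_atP P _ _)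

/-- a set with the Tarski-Vaught property is an elementary substructure -/
theorem exists_elemSub {L : FirstOrder.Language.{u, u}} {W : Type u} [L.Structure W] (Q : Set W)
    (h : ∀ (n : ℕ) (φ : L.Formula (Fin n ⊕ Fin 1)) (x : Fin n → W), (∀ i, x i ∈ Q) →
      (∃ a : Fin 1 → W, φ.Realize (Sum.elim x a)) → ∃ b : Fin 1 → W, φ.Realize (Sum.elim x b) ∧ b 0 ∈ Q) :
    ∃ S : L.ElementarySubstructure W, ∀ x : W, x ∈ S ↔ x ∈ Q := by
  let S0 : L.Substructure W := ⟨Q, fun {n} f x hx => by
    obtain ⟨b, hb1, hb2⟩ := h n ((Term.func f (fun i => Term.var (Sum.inl i))).equal (Term.var (Sum.inr 0))) x hx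
      ⟨fun _ => Structure.funMap f x, by
        rw [Formula.realize_equal]
        rfl⟩
    rw [Formula.realize_equal] at hb1
    have h2 : Structure.funMap f x = b 0 := hb1
    rw [h2]
    exact hb2⟩
  refine ⟨S0.toElementarySubstructure ?_, fun x => Iff.rfl⟩
  intro n φ x a hφ
  let r : Empty ⊕ Fin (n + 1) → Fin n ⊕ Fin 1 :=
    Sum.elim Empty.elim (Fin.snoc (α := fun _ => Fin n ⊕ Fin 1) Sum.inl (Sum.inr 0))
  have key : ∀ c : Fin 1 → W, (φ.toFormula.relabel r).Realize (Sum.elim (fun i => (x i : W)) c) ↔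
      φ.Realize default (Fin.snoc ((↑) ∘ x) (c 0) : _ → W) := by
    intro c
    rw [Formula.realize_relabel, BoundedFormula.realize_toFormula]
    have h1 : ((Sum.elim (fun i => (x i : W)) c ∘ r) ∘ Sum.inl : Empty → W) = default := Subsingleton.elim _ _
    have h2 : ((Sum.elim (fun i => (x i : W)) c ∘ r) ∘ Sum.inr : Fin (n + 1) → W) =
        (Fin.snoc ((↑) ∘ x) (c 0) : _ → W) := by
      funext i
      refine Fin.lastCases ?_ (fun j => ?_) i
      · simp [r]
      · simp [r]
    rw [h1, h2]
  obtain ⟨b, hb1, hb2⟩ := h n (φ.toFormula.relabel r) (fun i => (x i : W)) (fun i => (x i).2)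
    ⟨fun _ => a, (key _).2 hφ⟩
  exact ⟨⟨b 0, hb2⟩, (key _).1 hb1⟩

/-! ### the range of an elementary embedding -/

/-- the range of an elementary embedding -/
def eR {L : FirstOrder.Language.{u, u}} {A U : Type u} [L.Structure A] [L.Structure U] (e : A ↪ₑ[L] U) :
    L.ElementarySubstructure U :=
  ⟨e.toEmbedding.toHom.range, by
    intro n φ x
    have h1 : ((↑) ∘ x : Fin n → U) = e ∘ (e.toEmbedding.equivRange.symm ∘ x) := by
      funext i
      have := e.toEmbedding.equivRange.apply_symm_apply (x i)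
      exact (congrArg Subtype.val this).symm
    rw [h1, e.map_formula]
    exact StrongHomClass.realize_formula e.toEmbedding.equivRange.symm φ⟩

/-- the isomorphism with the range -/
noncomputable def eRe {L : FirstOrder.Language.{u, u}} {A U : Type u} [L.Structure A] [L.Structure U]
    (e : A ↪ₑ[L] U) : A ≃[L] (eR e) :=
  e.toEmbedding.equivRange

theorem coe_eRe {L : FirstOrder.Language.{u, u}} {A U : Type u} [L.Structure A] [L.Structure U]
    (e : A ↪ₑ[L] U) (a : A) : ((eRe e a : eR e) : U) = e a := rfl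

theorem mem_eR {L : FirstOrder.Language.{u, u}} {A U : Type u} [L.Structure A] [L.Structure U]
    (e : A ↪ₑ[L] U) (x : U) : x ∈ eR e ↔ ∃ a, e a = x := Iff.rfl

theorem mk_eR {L : FirstOrder.Language.{u, u}} {A U : Type u} [L.Structure A] [L.Structure U]
    (e : A ↪ₑ[L] U) : Cardinal.mk (eR e) = Cardinal.mk A :=
  (Cardinal.mk_congr (eRe e).toEquiv).symm

/-- an `L`-isomorphism respecting the predicates is an isomorphism of pairs -/
def pairEquiv {L : FirstOrder.Language.{u, u}} {A B : Type u} [L.Structure A] [L.Structure B] (e : A ≃[L] B)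
    (P : Set A) (R : Set B) (h : ∀ a, a ∈ P ↔ e a ∈ R) :
    @FirstOrder.Language.Equiv (L.sum LP.{u}) A B (pairStr L A P) (pairStr L B R) :=
  @FirstOrder.Language.Equiv.mk (L.sum LP.{u}) A B (pairStr L A P) (pairStr L B R) e.toEquiv
    (by
      intro n f x
      rcases f with g | z
      · exact e.map_fun' g x
      · exact PEmpty.elim z)
    (by
      intro n r x
      rcases r with s | p
      · exact e.map_rel' s x
      · cases p
        exact (h (x 0)).symm)

theorem realize_of_equiv {L : FirstOrder.Language.{u, u}} {A B : Type u} (SA : L.Structure A) (SB : L.Structure B)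
    (e : @FirstOrder.Language.Equiv L A B SA SB) {n : ℕ} (φ : L.Formula (Fin n)) (x : Fin n → A) (y : Fin n → B)
    (hy : ∀ i, e.toEquiv (x i) = y i) : φ.Realize y ↔ φ.Realize x := by
  have h1 : y = e ∘ x := funext fun i => (hy i).symm
  rw [h1]
  exact StrongHomClass.realize_formula e φ

/-! ### the auxiliary models -/

/-- `exists_aux`: the auxiliary models in the definition of `F_M` exist, over any infinite structure `V` and with the
monster model as saturated as wanted. The hypothesis `hsat` is the existence of saturated elementary extensions. -/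
theorem exists_aux
    (hsat : ∀ (L : FirstOrder.Language.{u, u}) (V : Type u) [L.Structure V] [Nonempty V] (κ : Cardinal.{u}),
      ∃ (W : Type u) (_ : L.Structure W), Nonempty (V ↪ₑ[L] W) ∧ Saturated L W κ)
    (L : FirstOrder.Language.{u, u}) (V : Type u) [L.Structure V] [Infinite V] (κ : Cardinal.{u}) :
    ∃ (U : Type u) (_ : L.Structure U) (M M' N' N : L.ElementarySubstructure U),
      (V ≅[L] U) ∧ Cardinal.mk M = Cardinal.mk V ∧ Saturated L U κ ∧ Saturated L U (Order.succ (max ℵ₀ (Cardinal.mk M))) ∧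
      Aux L U M M' N' N := by
  classical
  -- `V ≺ A`, `A` is `|V|⁺`-saturated
  obtain ⟨A, SA, ⟨f⟩, hA⟩ := hsat L V (Order.succ (Cardinal.mk V))
  have neA : Nonempty A := (inferInstance : Nonempty V).map f
  -- `(A, P) ≺ (B, Q)`, `(B, Q)` is `|A|⁺`-saturated
  obtain ⟨B, SB1, hg0, hB⟩ := @hsat (L.sum LP.{u}) A (pairStr L A (Set.range f)) neA (Order.succ (Cardinal.mk A))
  obtain ⟨SB, Q, rfl⟩ := exists_pairStr B SB1
  obtain ⟨g, hg⟩ : ∃ g : A → B, ∀ {α : Type} (φ : (L.sum LP.{u}).Formula α) (x : α → A),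
      @Formula.Realize (L.sum LP.{u}) B (pairStr L B Q) α φ (g ∘ x) ↔
        @Formula.Realize (L.sum LP.{u}) A (pairStr L A (Set.range f)) α φ x := by
    obtain ⟨g⟩ := hg0
    exact ⟨@ElementaryEmbedding.toFun (L.sum LP.{u}) A B (pairStr L A (Set.range f)) (pairStr L B Q) g,
      fun {α} φ x => @ElementaryEmbedding.map_formula (L.sum LP.{u}) A B (pairStr L A (Set.range f)) (pairStr L B Q) g
        α φ x⟩
  -- `g` as an `L`-elementary embedding
  let g' : A ↪ₑ[L] B := ⟨g, fun {n} φ x => by
    rw [← realize_up Q, hg, realize_up]⟩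
  have hgP : ∀ a : A, g' a ∈ Q ↔ a ∈ Set.range f := by
    intro a
    have := hg (atP (L := L) (0 : Fin 1)) (fun _ => a)
    rw [realize_atP, realize_atP] at this
    exact this
  have neB : Nonempty B := neA.map g'
  -- `B ≺ U`
  obtain ⟨U, SU, ⟨h⟩, hU⟩ := hsat L B (max κ (Order.succ (max ℵ₀ (Cardinal.mk V))))
  -- the elementary substructure `Q` of `B`
  obtain ⟨S, hS⟩ := exists_elemSub (L := L) Q (by
    intro n φ
    have h1 := (realize_tv (Set.range f) φ default).2 (by
      intro x hx ha
      choose y hy using hx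
      obtain ⟨a, ha⟩ := ha
      -- the formula is satisfied in `A` with parameters from `V`
      have hxy : x = f ∘ y := funext fun i => (hy i).symm
      have h2 : (φ.iExs (Fin 1)).Realize x := Formula.realize_iExs.2 ⟨a, ha⟩
      rw [hxy, f.map_formula, Formula.realize_iExs] at h2
      obtain ⟨b, hb⟩ := h2
      refine ⟨f ∘ b, ?_, ⟨b 0, rfl⟩⟩
      rw [hxy, ← Sum.comp_elim, f.map_formula]
      exact hb)
    rw [← hg] at h1
    exact (realize_tv Q φ _).1 h1)
  let M := eR ((h.comp g').comp f)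
  let M' := eR (h.comp g')
  let N' := eR h
  let N := eR (h.comp S.subtype)
  have hMV : Cardinal.mk M = Cardinal.mk V := mk_eR _
  have hMA : Cardinal.mk M' = Cardinal.mk A := mk_eR _
  have memN : ∀ b : B, h b ∈ N ↔ b ∈ Q := by
    intro b
    constructor
    · rintro ⟨s, hs⟩
      have : (s : B) = b := h.injective hs
      rw [← this]
      exact (hS _).1 s.2
    · intro hb
      exact ⟨⟨b, (hS b).2 hb⟩, rfl⟩
  have memM : ∀ a : A, h (g' a) ∈ M ↔ a ∈ Set.range f := by
    intro a
    constructor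
    · rintro ⟨v, hv⟩
      exact ⟨v, (h.comp g').injective hv⟩
    · rintro ⟨v, rfl⟩
      exact ⟨v, rfl⟩
  refine ⟨U, SU, M, M', N', N, ((h.comp g').comp f).elementarilyEquivalent, hMV, sat_mono hU (le_max_left _ _), ?_, ?_⟩
  · rw [hMV]
    exact sat_mono hU (le_max_right _ _)
  · refine ⟨?_, ?_, ?_, ?_, ?_, ?_, ?_⟩
    · rintro x ⟨v, rfl⟩
      exact ⟨f v, rfl⟩
    · rintro x ⟨a, rfl⟩
      exact ⟨g' a, rfl⟩
    · rintro x ⟨s, rfl⟩
      exact ⟨s, rfl⟩
    · rintro x ⟨v, rfl⟩
      exact (memN (g' (f v))).2 ((hgP _).2 ⟨v, rfl⟩)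
    · rw [hMV]
      exact sat_of_equiv (eRe (h.comp g')) hA
    · intro n φ a
      let e1 := pairEquiv (eRe (h.comp g')) (Set.range f) {x : M' | (x : U) ∈ M} (fun a => (memM a).symm)
      let e2 := pairEquiv (eRe h) Q {x : N' | (x : U) ∈ N} (fun b => (memN b).symm)
      -- the tuple `a` comes from `A`
      obtain ⟨a0, ha0⟩ : ∃ a0 : Fin n → A, ∀ i, eRe (h.comp g') (a0 i) = a i :=
        ⟨fun i => (eRe (h.comp g')).symm (a i), fun i => (eRe (h.comp g')).apply_symm_apply (a i)⟩
      have hval : ∀ i, h (g (a0 i)) = (a i : U) := fun i => congrArg Subtype.val (ha0 i)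
      have h1 := realize_of_equiv (pairStr L A (Set.range f)) (pairStr L M' {x : M' | (x : U) ∈ M}) e1 φ a0 a ha0
      have h2 := realize_of_equiv (pairStr L B Q) (pairStr L N' {x : N' | (x : U) ∈ N}) e2 φ (fun i => g (a0 i))
        (fun i => ⟨(a i : U), ⟨g (a0 i), hval i⟩⟩) (fun i => Subtype.ext (hval i))
      exact h1.trans ((hg φ a0).symm.trans h2.symm)
    · rw [hMA]
      exact @sat_of_equiv (L.sum LP.{u}) B N' (pairStr L B Q) (pairStr L N' {x : N' | (x : U) ∈ N})
        (pairEquiv (eRe h) Q {x : N' | (x : U) ∈ N} (fun b => (memN b).symm)) _ hB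

end Pool.Agent.helper92.IT
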